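import Pool.Agent.Helper67.DO.StmtsD

/-!
# D14: the staircase cochains are level cochains
-/

namespace Pool.Agent.Helper67.DO

open scoped BigOperators Real
open MeasureTheory

noncomputable section

/-- splitting off the variable `a` -/
theorem d14_upd (q i : ℕ) (a : Fin q) (u : Fin q → ℝ) (t : ℝ) :
    lam q i (Function.update u a t) = (if (a : ℕ) < i then t else 1) * (if (a : ℕ) = i then 1 - t else 1) *
      ((∏ k ∈ Finset.univ.erase a, if (k : ℕ) < i then u k else 1) *
       (∏ k ∈ Finset.univ.erase a, if (k : ℕ) = i then 1 - u k else 1)) := by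
  unfold lam
  rw [← Finset.mul_prod_erase Finset.univ (fun k : Fin q => if (k : ℕ) < i then Function.update u a t k else 1)
      (Finset.mem_univ a),
    ← Finset.mul_prod_erase Finset.univ (fun k : Fin q => if (k : ℕ) = i then 1 - Function.update u a t k else 1)
      (Finset.mem_univ a)]
  have h1 : ∏ k ∈ Finset.univ.erase a, (if (k : ℕ) < i then Function.update u a t k else 1)
      = ∏ k ∈ Finset.univ.erase a, (if (k : ℕ) < i then u k else 1) :=
    Finset.prod_congr rfl fun k hk => by rw [Function.update_of_ne (Finset.ne_of_mem_erase hk)]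
  have h2 : ∏ k ∈ Finset.univ.erase a, (if (k : ℕ) = i then 1 - Function.update u a t k else 1)
      = ∏ k ∈ Finset.univ.erase a, (if (k : ℕ) = i then 1 - u k else 1) :=
    Finset.prod_congr rfl fun k hk => by rw [Function.update_of_ne (Finset.ne_of_mem_erase hk)]
  rw [h1, h2, Function.update_self]
  ring

theorem d14_aff (q i : ℕ) (a : Fin q) (u : Fin q → ℝ) (t : ℝ) :
    lam q i (Function.update u a t)
      = lam q i (Function.update u a 0) + t * (lam q i (Function.update u a 1) - lam q i (Function.update u a 0)) := by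
  rw [d14_upd, d14_upd, d14_upd]
  by_cases h1 : (a : ℕ) < i
  · have h2 : (a : ℕ) ≠ i := by omega
    simp only [if_pos h1, if_neg h2]
    ring
  · by_cases h2 : (a : ℕ) = i
    · simp only [if_neg h1, if_pos h2]
      ring
    · simp only [if_neg h1, if_neg h2]
      ring

theorem d14_dlam (q i : ℕ) (a : Fin q) (u : Fin q → ℝ) :
    dlam q i a u = lam q i (Function.update u a 1) - lam q i (Function.update u a 0) := by
  unfold dlam
  have h : (fun t => lam q i (Function.update u a t)) = fun t => lam q i (Function.update u a 0) +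
      t * (lam q i (Function.update u a 1) - lam q i (Function.update u a 0)) := funext fun t => d14_aff q i a u t
  rw [h]
  have := ((hasDerivAt_id (u a)).mul_const (lam q i (Function.update u a 1) - lam q i (Function.update u a 0))).const_add
    (lam q i (Function.update u a 0))
  simp [this.deriv]

theorem d14_dPhi (q : ℕ) (y : Sq) (a : Fin q) (u : Fin q → ℝ) (x : ℝ) :
    dPhi q y a u x = Phi q y (Function.update u a 1) x - Phi q y (Function.update u a 0) x := by
  unfold dPhi Phi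
  rw [← Finset.sum_sub_distrib]
  exact Finset.sum_congr rfl fun i _ => by rw [d14_dlam]; ring

/-- partial products -/
def d14P (q : ℕ) (i : ℕ) (u : Fin q → ℝ) : ℝ := ∏ k : Fin q, if (k : ℕ) < i then u k else 1

theorem d14P_succ (q i : ℕ) (hi : i < q) (u : Fin q → ℝ) : d14P q (i + 1) u = d14P q i u * u ⟨i, hi⟩ := by
  unfold d14P
  have h : ∀ k : Fin q, (if (k : ℕ) < i + 1 then u k else 1) =
      (if (k : ℕ) < i then u k else 1) * (if k = ⟨i, hi⟩ then u k else 1) := by
    intro k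
    by_cases h1 : (k : ℕ) < i
    · have h2 : k ≠ ⟨i, hi⟩ := fun h => by rw [h] at h1; simp at h1
      rw [if_pos h1, if_pos (by omega), if_neg h2, mul_one]
    · by_cases h2 : k = ⟨i, hi⟩
      · subst h2
        simp
      · have h3 : ¬ (k : ℕ) < i + 1 := fun h => h2 (Fin.ext (by simp; omega))
        rw [if_neg h1, if_neg h3, if_neg h2, mul_one]
  rw [Finset.prod_congr rfl fun k _ => h k, Finset.prod_mul_distrib, Finset.prod_ite_eq' Finset.univ _ u]
  simp

theorem d14_lam_lt (q i : ℕ) (hi : i < q) (u : Fin q → ℝ) : lam q i u = d14P q i u - d14P q (i + 1) u := by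
  rw [d14P_succ q i hi]
  unfold lam
  have h : ∀ k : Fin q, (if (k : ℕ) = i then 1 - u k else 1) = (if k = ⟨i, hi⟩ then 1 - u k else 1) := by
    intro k
    by_cases h2 : (k : ℕ) = i
    · rw [if_pos h2, if_pos (Fin.ext h2)]
    · rw [if_neg h2, if_neg fun h => h2 (by rw [h])]
  rw [Finset.prod_congr rfl fun k _ => h k, Finset.prod_ite_eq' Finset.univ _ (fun k => 1 - u k)]
  simp only [Finset.mem_univ, if_true]
  unfold d14P
  ring

theorem d14_lam_top (q : ℕ) (u : Fin q → ℝ) : lam q q u = d14P q q u := by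
  unfold lam d14P
  rw [Finset.prod_congr (s₂ := Finset.univ) (g := fun _ => (1 : ℝ)) rfl (f := fun k : Fin q =>
    if (k : ℕ) = q then 1 - u k else 1) fun k _ => if_neg (by have := k.2; omega)]
  simp

theorem d14_lam_sum (q : ℕ) (u : Fin q → ℝ) : ∑ i ∈ Finset.range (q + 1), lam q i u = 1 := by
  rw [Finset.sum_range_succ, d14_lam_top]
  have h : ∑ i ∈ Finset.range q, lam q i u = ∑ i ∈ Finset.range q, (d14P q i u - d14P q (i + 1) u) :=
    Finset.sum_congr rfl fun i hi => d14_lam_lt q i (Finset.mem_range.1 hi) u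
  rw [h, Finset.sum_range_sub' (fun i => d14P q i u)]
  have h0 : d14P q 0 u = 1 := by simp [d14P]
  rw [h0]
  ring

theorem d14_lam_nonneg (q i : ℕ) (u : Fin q → ℝ) (hu : u ∈ Set.Icc (0 : Fin q → ℝ) 1) : 0 ≤ lam q i u := by
  unfold lam
  refine mul_nonneg (Finset.prod_nonneg fun k _ => ?_) (Finset.prod_nonneg fun k _ => ?_)
  · split_ifs
    · exact hu.1 k
    · norm_num
  · split_ifs
    · have := hu.2 k
      simp only [Pi.one_apply] at this
      linarith
    · norm_num

theorem d14_lam_cont (q i : ℕ) : Continuous (lam q i) := by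
  unfold lam
  refine Continuous.mul (continuous_finsetProd _ fun k _ => ?_) (continuous_finsetProd _ fun k _ => ?_)
  · split_ifs
    · exact continuous_apply k
    · exact continuous_const
  · split_ifs
    · exact continuous_const.sub (continuous_apply k)
    · exact continuous_const

theorem d14_mem1 {q : ℕ} (a : Fin q) {u : Fin q → ℝ} (hu : u ∈ Set.Icc (0 : Fin q → ℝ) 1) (t : ℝ) (h0 : 0 ≤ t)
    (h1 : t ≤ 1) : Function.update u a t ∈ Set.Icc (0 : Fin q → ℝ) 1 := by
  constructor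
  · intro k
    by_cases h : k = a
    · subst h; simpa using h0
    · rw [Function.update_of_ne h]; exact hu.1 k
  · intro k
    by_cases h : k = a
    · subst h; simpa using h1
    · rw [Function.update_of_ne h]; exact hu.2 k

/-- sum of the increments of `lam` -/
theorem d14_dlam_sum (q : ℕ) (a : Fin q) (u : Fin q → ℝ) : ∑ i ∈ Finset.range (q + 1), dlam q i a u = 0 := by
  rw [Finset.sum_congr rfl fun i _ => d14_dlam q i a u, Finset.sum_sub_distrib, d14_lam_sum, d14_lam_sum, sub_self]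

/-- translation of a point of the simplex -/
theorem d14_Phi_tr (q : ℕ) (y : Sq) (t : ℕ → ℝ) (u : Fin q → ℝ) :
    Phi q (fun k x => y k x + t k) u = fun x => Phi q y u x + ∑ i ∈ Finset.range (q + 1), lam q i u * t i := by
  funext x
  unfold Phi
  rw [← Finset.sum_add_distrib]
  exact Finset.sum_congr rfl fun i _ => by ring

theorem d14_dPhi_tr (q : ℕ) (y : Sq) (t : ℕ → ℝ) (a : Fin q) (u : Fin q → ℝ) :
    dPhi q (fun k x => y k x + t k) a u
      = fun x => dPhi q y a u x + ∑ i ∈ Finset.range (q + 1), dlam q i a u * t i := by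
  funext x
  unfold dPhi
  rw [← Finset.sum_add_distrib]
  exact Finset.sum_congr rfl fun i _ => by ring

/-- scaling of directions -/
theorem d14_VV_mono (h2 : ST_D2) {n : ℕ} (hn : 1 ≤ n) {K K' : ℝ} (hK : K ≤ K') {v : ℝ → ℝ} (hv : v ∈ VV n K) :
    v ∈ VV n K' := by
  obtain ⟨⟨Φ, hΦ, Ψ, hΨ, hv1⟩, hv2⟩ := hv
  have hK0 : 0 ≤ K := (abs_nonneg _).trans (hv2 0)
  refine ⟨?_, fun x => (hv2 x).trans hK⟩
  rcases eq_or_lt_of_le (hK0.trans hK) with h0 | h0
  · refine ⟨Φ, hΦ, Ψ, hΨ, ?_⟩
    have : K = 0 := by linarith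
    rw [hv1, ← h0, this]
  · refine ⟨_, h2.2.2.1 n hn Ψ hΨ Φ hΦ (K / K') (div_nonneg hK0 h0.le) ((div_le_one h0).2 hK), Ψ, hΨ, ?_⟩
    rw [hv1]
    funext x
    field_simp
    ring

theorem d14_VV_zero {n : ℕ} {K : ℝ} (hK : 0 ≤ K) {Φ : ℝ → ℝ} (hΦ : Φ ∈ AA n) : (0 : ℝ → ℝ) ∈ VV n K :=
  ⟨⟨Φ, hΦ, Φ, hΦ, by funext x; simp⟩, fun x => by simpa using hK⟩

/-- normalised sequences -/
def d14N (y : Sq) : Sq := fun k x => y k x + -(y k 0)

theorem d14N_mem (h2 : ST_D2) {n : ℕ} (hn : 1 ≤ n) {y : Sq} (hy : ∀ k, y k ∈ AA n) (k : ℕ) : d14N y k ∈ AA n :=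
  (h2.2.2.2.2.1 n hn (y k) (hy k) (-(y k 0))).1

/-- uniform constant for normalised directions -/
theorem d14_unifK (h2 : ST_D2) {n : ℕ} (hn : 1 ≤ n) : ∃ K : ℝ, 1 ≤ K ∧
    (∀ Φ ∈ AA n, ∀ x, |Φ x + -(Φ 0) - x| ≤ K) ∧
    ∀ (q : ℕ) (y : Sq), (∀ k, y k ∈ AA n) → ∀ u ∈ Set.Icc (0 : Fin q → ℝ) 1, ∀ a : Fin q,
      dPhi q (d14N y) a u ∈ VV n (2 * K) := by
  obtain ⟨K, hK, h⟩ := h2.2.2.2.2.2.1 n hn
  have h' : ∀ Φ ∈ AA n, ∀ x, |Φ x + -(Φ 0) - x| ≤ max 1 K := by
    intro Φ hΦ x
    have := (h Φ hΦ x).trans (le_max_right 1 K)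
    have e : Φ x + -(Φ 0) - x = Φ x - x - Φ 0 := by ring
    rwa [e]
  refine ⟨max 1 K, le_max_left _ _, h', ?_⟩
  intro q y hy u hu a
  have hK1 : (1 : ℝ) ≤ max 1 K := le_max_left _ _
  have hm : ∀ k, d14N y k ∈ AA n := d14N_mem h2 hn hy
  have hP1 := h2.2.2.2.2.2.2.1 n hn q (d14N y) hm _ (d14_mem1 a hu 1 zero_le_one le_rfl)
  have hP0 := h2.2.2.2.2.2.2.1 n hn q (d14N y) hm _ (d14_mem1 a hu 0 le_rfl zero_le_one)
  have hb : ∀ u' ∈ Set.Icc (0 : Fin q → ℝ) 1, ∀ x, |Phi q (d14N y) u' x - x| ≤ max 1 K := by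
    intro u' hu' x
    have e : Phi q (d14N y) u' x - x = ∑ i ∈ Finset.range (q + 1), lam q i u' * (d14N y i x - x) := by
      have := d14_lam_sum q u'
      unfold Phi
      simp only [mul_sub, Finset.sum_sub_distrib, ← Finset.sum_mul, this, one_mul]
    rw [e]
    refine (Finset.abs_sum_le_sum_abs _ _).trans ?_
    have e2 : max 1 K = ∑ i ∈ Finset.range (q + 1), lam q i u' * max 1 K := by
      rw [← Finset.sum_mul, d14_lam_sum, one_mul]
    rw [e2]
    refine Finset.sum_le_sum fun i _ => ?_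
    rw [abs_mul, abs_of_nonneg (d14_lam_nonneg q i u' hu')]
    exact mul_le_mul_of_nonneg_left (h' (y i) (hy i) x) (d14_lam_nonneg q i u' hu')
  have h1 : dPhi q (d14N y) a u ∈ VV n (2 * max 1 K) := by
    refine ⟨?_, ?_⟩
    · have hs0 : (0 : ℝ) ≤ 1 / (2 * max 1 K) := by positivity
      have hs1 : 1 / (2 * max 1 K) ≤ 1 := by
        rw [div_le_one (by positivity)]
        linarith
      refine ⟨_, h2.2.2.1 n hn _ hP0 _ hP1 _ hs0 hs1, _, hP0, ?_⟩
      funext x
      rw [d14_dPhi]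
      have : (2 * max 1 K) ≠ 0 := by positivity
      field_simp
      ring
    · intro x
      rw [d14_dPhi]
      have e : Phi q (d14N y) (Function.update u a 1) x - Phi q (d14N y) (Function.update u a 0) x
        = (Phi q (d14N y) (Function.update u a 1) x - x) - (Phi q (d14N y) (Function.update u a 0) x - x) := by ring
      rw [e]
      have a1 := hb _ (d14_mem1 a hu 1 zero_le_one le_rfl) x
      have a2 := hb _ (d14_mem1 a hu 0 le_rfl zero_le_one) x
      rw [abs_le] at a1 a2 ⊢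
      constructor <;> linarith
  exact h1

theorem d14_K (h2 : ST_D2) {n : ℕ} (hn : 1 ≤ n) (q : ℕ) (y : Sq) (hy : ∀ k, y k ∈ AA n) :
    ∃ K : ℝ, 0 ≤ K ∧ ∀ u ∈ Set.Icc (0 : Fin q → ℝ) 1, ∀ a : Fin q, dPhi q y a u ∈ VV n K := by
  obtain ⟨K, hK⟩ := h2.2.2.2.2.2.2.2 n hn q y hy
  exact ⟨max K 0, le_max_right _ _, fun u hu a => d14_VV_mono h2 hn (le_max_left _ _) (hK u hu a)⟩

theorem d14_dirs_mem {n : ℕ} {K : ℝ} (hK : 0 ≤ K) {Φ : ℝ → ℝ} (hΦ : Φ ∈ AA n) {q : ℕ} {y : Sq} {u : Fin q → ℝ}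
    (hd : ∀ a : Fin q, dPhi q y a u ∈ VV n K) (σ : Fin q → Fin q) (b : ℕ) : dirs y u σ b ∈ VV n K := by
  unfold dirs
  split_ifs with h
  · exact hd _
  · exact d14_VV_zero hK hΦ

theorem d14_Tp_mem {n : ℕ} {j : ℕ} {x : ℝ → ℝ} {z : Sq} (hx : x ∈ AA n) (hz : ∀ k, z k ∈ AA n) (k : ℕ) :
    Tp j x z k ∈ AA n := by
  unfold Tp
  split_ifs
  · exact hx
  · exact hz _

/-- translation invariance of the integrand -/
theorem d14_fF_tr (h2 : ST_D2) {n P : ℕ} (hn : 1 ≤ n) {c : ℕ → Sq → Sq → ℂ} (hc : MC n P c) {j : ℕ} (hj : j ≤ P)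
    (y z : Sq) (hy : ∀ k, y k ∈ AA n) (hz : ∀ k, z k ∈ AA n) (t τ : ℕ → ℝ) (u : Fin j → ℝ)
    (hu : u ∈ Set.Icc (0 : Fin j → ℝ) 1) :
    fF c j (fun k x => y k x + t k) (fun k x => z k x + τ k) u = fF c j y z u := by
  obtain ⟨K, hK0, hK⟩ := d14_K h2 hn j y hy
  have hP := h2.2.2.2.2.2.2.1 n hn j y hy u hu
  unfold fF
  refine Finset.sum_congr rfl fun σ _ => ?_
  congr 1
  have e1 : Tp j (Phi j (fun k x => y k x + t k) u) (fun k x => z k x + τ k)
      = fun k x => Tp j (Phi j y u) z k x +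
        (fun k => if k ≤ j then ∑ i ∈ Finset.range (j + 1), lam j i u * t i else τ (k - (j + 1))) k := by
    funext k x
    rw [d14_Phi_tr]
    by_cases h : k ≤ j
    · simp only [Tp, if_pos h]
    · simp only [Tp, if_neg h]
  have e2 : dirs (fun k x => y k x + t k) u σ = fun b x => dirs y u σ b x +
      (fun b => if h : b < j then ∑ i ∈ Finset.range (j + 1), dlam j i (σ ⟨b, h⟩) u * t i else 0) b := by
    funext b x
    by_cases h : b < j
    · simp only [dirs, dif_pos h]
      rw [d14_dPhi_tr]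
    · simp only [dirs, dif_neg h]
      simp
  rw [e1, e2]
  exact hc.tinv j hj _ _ _ _ K (fun k => d14_Tp_mem hP hz k) (fun b => d14_dirs_mem hK0 hP (hK u hu) σ b)

theorem d14_fF_N (h2 : ST_D2) {n P : ℕ} (hn : 1 ≤ n) {c : ℕ → Sq → Sq → ℂ} (hc : MC n P c) {j : ℕ} (hj : j ≤ P)
    (y z : Sq) (hy : ∀ k, y k ∈ AA n) (hz : ∀ k, z k ∈ AA n) (u : Fin j → ℝ)
    (hu : u ∈ Set.Icc (0 : Fin j → ℝ) 1) : fF c j (d14N y) z u = fF c j y z u := by
  have h := d14_fF_tr h2 hn hc hj y z hy hz (fun k => -(y k 0)) (fun _ => 0) u hu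
  have e : (fun (k : ℕ) (x : ℝ) => z k x + (fun _ : ℕ => (0 : ℝ)) k) = z := by
    funext k x
    simp
  rw [e] at h
  exact h

/-- right invariance of the integrand -/
theorem d14_fF_r (h2 : ST_D2) {n P : ℕ} (hn : 1 ≤ n) {c : ℕ → Sq → Sq → ℂ} (hc : MC n P c) {j : ℕ} (hj : j ≤ P)
    (y z : Sq) (hy : ∀ k, y k ∈ AA n) (hz : ∀ k, z k ∈ AA n) (g : ℝ → ℝ) (hg : IsLift g)
    (hyg : ∀ k, (fun x => y k (g x)) ∈ AA n) (hzg : ∀ k, (fun x => z k (g x)) ∈ AA n) (u : Fin j → ℝ)
    (hu : u ∈ Set.Icc (0 : Fin j → ℝ) 1) :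
    fF c j (fun k x => y k (g x)) (fun k x => z k (g x)) u = fF c j y z u := by
  obtain ⟨K1, hK10, hK1⟩ := d14_K h2 hn j y hy
  obtain ⟨K2, hK20, hK2⟩ := d14_K h2 hn j (fun k x => y k (g x)) hyg
  have hP := h2.2.2.2.2.2.2.1 n hn j y hy u hu
  have hPg := h2.2.2.2.2.2.2.1 n hn j (fun k x => y k (g x)) hyg u hu
  unfold fF
  refine Finset.sum_congr rfl fun σ _ => ?_
  congr 1
  have e1 : Tp j (Phi j (fun k x => y k (g x)) u) (fun k x => z k (g x))
      = fun k x => Tp j (Phi j y u) z k (g x) := by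
    funext k x
    by_cases h : k ≤ j
    · simp only [Tp, if_pos h]
      rfl
    · simp only [Tp, if_neg h]
  have e2 : dirs (fun k x => y k (g x)) u σ = fun b x => dirs y u σ b (g x) := by
    funext b x
    by_cases h : b < j
    · simp only [dirs, dif_pos h]
      rfl
    · simp only [dirs, dif_neg h]
      simp
  have m1 : ∀ b, dirs y u σ b ∈ VV n (max K1 K2) := fun b =>
    d14_VV_mono h2 hn (le_max_left _ _) (d14_dirs_mem hK10 hP (hK1 u hu) σ b)
  have m2 : ∀ b, (fun x => dirs y u σ b (g x)) ∈ VV n (max K1 K2) := by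
    intro b
    have h := d14_VV_mono h2 hn (le_max_right K1 K2) (d14_dirs_mem hK20 hP (hK2 u hu) σ b)
    rw [e2] at h
    exact h
  have m3 : ∀ k, (fun x => Tp j (Phi j y u) z k (g x)) ∈ AA n := by
    intro k
    have h := d14_Tp_mem (j := j) hPg hzg k
    rw [e1] at h
    exact h
  rw [e1, e2]
  exact hc.rinv j hj _ _ g (max K1 K2) hg (fun k => d14_Tp_mem hP hz k) m1 m3 m2

/-- two point estimate -/
theorem d14_two (h2 : ST_D2) {n P : ℕ} (hn : 1 ≤ n) {c : ℕ → Sq → Sq → ℂ} (hc : MC n P c) {j : ℕ} (hj : j ≤ P)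
    (ε : ℝ) (hε : 0 < ε) : ∃ δ : ℝ, 0 < δ ∧ ∀ y y' z z' : Sq, (∀ k, y k ∈ AA n) → (∀ k, y' k ∈ AA n) →
      (∀ k, z k ∈ AA n) → (∀ k, z' k ∈ AA n) → ∀ u ∈ Set.Icc (0 : Fin j → ℝ) 1, ∀ u' ∈ Set.Icc (0 : Fin j → ℝ) 1,
      (∀ x, |Phi j (d14N y) u x - Phi j (d14N y') u' x| ≤ δ) →
      (∀ a x, |dPhi j (d14N y) a u x - dPhi j (d14N y') a u' x| ≤ δ) →
      (∀ k, k + j + 1 ≤ P → ∀ x, |z k x - z' k x| ≤ δ) →
      ‖fF c j (d14N y) z u - fF c j (d14N y') z' u'‖ ≤ ε := by
  obtain ⟨K, hK1, -, hK⟩ := d14_unifK h2 hn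
  set N : ℝ := (Fintype.card (Equiv.Perm (Fin j)) : ℝ) with hN
  have hN0 : 0 < N := by
    rw [hN]
    exact_mod_cast Fintype.card_pos
  obtain ⟨δ, hδ, h⟩ := hc.uc j hj (2 * K) (ε / N) (div_pos hε hN0)
  refine ⟨δ, hδ, ?_⟩
  intro y y' z z' hy hy' hz hz' u hu u' hu' h1 h3 h4
  have hP := h2.2.2.2.2.2.2.1 n hn j _ (d14N_mem h2 hn hy) u hu
  have hP' := h2.2.2.2.2.2.2.1 n hn j _ (d14N_mem h2 hn hy') u' hu'
  have hK0 : (0 : ℝ) ≤ 2 * K := by linarith
  unfold fF
  rw [← Finset.sum_sub_distrib]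
  refine (norm_sum_le _ _).trans ?_
  have hb : ∀ σ ∈ (Finset.univ : Finset (Equiv.Perm (Fin j))),
      ‖((Equiv.Perm.sign σ : ℤ) : ℂ) * c j (Tp j (Phi j (d14N y) u) z) (dirs (d14N y) u σ) -
        ((Equiv.Perm.sign σ : ℤ) : ℂ) * c j (Tp j (Phi j (d14N y') u') z') (dirs (d14N y') u' σ)‖ ≤ ε / N := by
    intro σ _
    have hs : ‖((Equiv.Perm.sign σ : ℤ) : ℂ)‖ = 1 := by
      rcases Int.units_eq_one_or (Equiv.Perm.sign σ) with h | h <;> rw [h] <;> simp
    rw [← mul_sub, norm_mul, hs, one_mul]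
    refine h _ _ _ _ (fun k => d14_Tp_mem hP hz k) (fun k => d14_Tp_mem hP' hz' k)
      (fun b => d14_dirs_mem hK0 hP (hK j y hy u hu) σ b) (fun b => d14_dirs_mem hK0 hP (hK j y' hy' u' hu') σ b) ?_ ?_
    · intro k hk x
      by_cases hkj : k ≤ j
      · simp only [Tp, if_pos hkj]
        exact h1 x
      · simp only [Tp, if_neg hkj]
        exact h4 _ (by omega) x
    · intro b hb x
      simp only [dirs, dif_pos hb]
      exact h3 _ x
  refine (Finset.sum_le_sum hb).trans ?_
  rw [Finset.sum_const, nsmul_eq_mul, Finset.card_univ, ← hN]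
  rw [mul_div_cancel₀ _ hN0.ne']

/-- difference of barycentric coordinates -/
def d14W (q : ℕ) (u u' : Fin q → ℝ) : ℝ := ∑ i ∈ Finset.range (q + 1), |lam q i u - lam q i u'|

theorem d14W_nonneg (q : ℕ) (u u' : Fin q → ℝ) : 0 ≤ d14W q u u' := Finset.sum_nonneg fun _ _ => abs_nonneg _

theorem d14W_self (q : ℕ) (u : Fin q → ℝ) : d14W q u u = 0 := by simp [d14W]

theorem d14W_cont (q : ℕ) (u' : Fin q → ℝ) : Continuous fun u => d14W q u u' :=
  continuous_finsetSum _ fun i _ => ((d14_lam_cont q i).sub continuous_const).abs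

theorem d14_Phi_diff (q : ℕ) (y : Sq) (K : ℝ) (hy : ∀ k x, |y k x - x| ≤ K) (u u' : Fin q → ℝ) (x : ℝ) :
    |Phi q y u x - Phi q y u' x| ≤ K * d14W q u u' := by
  have e : Phi q y u x - Phi q y u' x = ∑ i ∈ Finset.range (q + 1), (lam q i u - lam q i u') * (y i x - x) := by
    have s1 := d14_lam_sum q u
    have s2 := d14_lam_sum q u'
    unfold Phi
    simp only [mul_sub, sub_mul, Finset.sum_sub_distrib, ← Finset.sum_mul, s1, s2]
    ring
  rw [e]
  refine (Finset.abs_sum_le_sum_abs _ _).trans ?_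
  unfold d14W
  rw [Finset.mul_sum]
  refine Finset.sum_le_sum fun i _ => ?_
  rw [abs_mul, mul_comm]
  exact mul_le_mul_of_nonneg_right (hy i x) (abs_nonneg _)

/-- continuity of the integrand on the cube -/
theorem d14_cont (h2 : ST_D2) {n P : ℕ} (hn : 1 ≤ n) {c : ℕ → Sq → Sq → ℂ} (hc : MC n P c) {j : ℕ} (hj : j ≤ P)
    (y z : Sq) (hy : ∀ k, y k ∈ AA n) (hz : ∀ k, z k ∈ AA n) :
    ContinuousOn (fun u => fF c j y z u) (Set.Icc (0 : Fin j → ℝ) 1) := by
  obtain ⟨K, hK1, hKb, -⟩ := d14_unifK h2 hn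
  have hK0 : (0 : ℝ) ≤ K := by linarith
  intro u' hu'
  rw [ContinuousWithinAt, Metric.tendsto_nhds]
  intro ε hε
  obtain ⟨δ, hδ, h⟩ := d14_two h2 hn hc hj (ε / 2) (half_pos hε)
  set w : (Fin j → ℝ) → ℝ := fun u => K * (d14W j u u' + ∑ a : Fin j,
    (d14W j (Function.update u a 1) (Function.update u' a 1) + d14W j (Function.update u a 0) (Function.update u' a 0)))
    with hw
  have hwc : Continuous w := by
    refine continuous_const.mul ((d14W_cont j u').add (continuous_finsetSum _ fun a _ => ?_))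
    exact ((d14W_cont j _).comp (continuous_id.update a continuous_const)).add
      ((d14W_cont j _).comp (continuous_id.update a continuous_const))
  have hw0 : w u' = 0 := by simp [hw, d14W_self]
  have hev : ∀ᶠ u in nhds u', w u < δ := by
    have ht := hwc.tendsto u'
    rw [hw0] at ht
    exact ht.eventually_lt_const hδ
  filter_upwards [hev.filter_mono nhdsWithin_le_nhds, self_mem_nhdsWithin] with u hwu hu
  have hyb : ∀ k x, |d14N y k x - x| ≤ K := fun k x => hKb (y k) (hy k) x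
  have hsum : ∀ a : Fin j, d14W j (Function.update u a 1) (Function.update u' a 1) +
      d14W j (Function.update u a 0) (Function.update u' a 0) ≤ ∑ a : Fin j,
    (d14W j (Function.update u a 1) (Function.update u' a 1) +
      d14W j (Function.update u a 0) (Function.update u' a 0)) := fun a =>
    Finset.single_le_sum (f := fun a : Fin j => d14W j (Function.update u a 1) (Function.update u' a 1) +
      d14W j (Function.update u a 0) (Function.update u' a 0))
      (fun b _ => add_nonneg (d14W_nonneg _ _ _) (d14W_nonneg _ _ _)) (Finset.mem_univ a)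
  have hS0 : 0 ≤ ∑ a : Fin j, (d14W j (Function.update u a 1) (Function.update u' a 1) +
      d14W j (Function.update u a 0) (Function.update u' a 0)) :=
    Finset.sum_nonneg fun b _ => add_nonneg (d14W_nonneg _ _ _) (d14W_nonneg _ _ _)
  have hfin := h y y z z hy hy hz hz u hu u' hu' ?_ ?_ ?_
  · rw [dist_eq_norm]
    have e1 := d14_fF_N h2 hn hc hj y z hy hz u hu
    have e2 := d14_fF_N h2 hn hc hj y z hy hz u' hu'
    rw [e1, e2] at hfin
    linarith
  · intro x
    refine (d14_Phi_diff j _ K hyb u u' x).trans ?_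
    refine le_trans ?_ hwu.le
    exact mul_le_mul_of_nonneg_left (by linarith) hK0
  · intro a x
    rw [d14_dPhi, d14_dPhi]
    have a1 := d14_Phi_diff j _ K hyb (Function.update u a 1) (Function.update u' a 1) x
    have a0 := d14_Phi_diff j _ K hyb (Function.update u a 0) (Function.update u' a 0) x
    refine le_trans ?_ hwu.le
    have a2 : K * (d14W j (Function.update u a 1) (Function.update u' a 1) +
      d14W j (Function.update u a 0) (Function.update u' a 0)) ≤ w u := by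
      refine mul_le_mul_of_nonneg_left ?_ hK0
      have := hsum a
      have := d14W_nonneg j u u'
      linarith
    refine le_trans ?_ a2
    rw [mul_add]
    rw [abs_le] at a1 a0 ⊢
    constructor <;> linarith
  · intro k _ x
    simpa using hδ.le

theorem d14_int (h2 : ST_D2) {n P : ℕ} (hn : 1 ≤ n) {c : ℕ → Sq → Sq → ℂ} (hc : MC n P c) {j : ℕ} (hj : j ≤ P)
    (y z : Sq) (hy : ∀ k, y k ∈ AA n) (hz : ∀ k, z k ∈ AA n) :
    IntegrableOn (fun u => fF c j y z u) (Set.Icc (0 : Fin j → ℝ) 1) :=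
  (d14_cont h2 hn hc hj y z hy hz).integrableOn_compact isCompact_Icc

theorem d14_vol (j : ℕ) : (volume : Measure (Fin j → ℝ)).real (Set.Icc (0 : Fin j → ℝ) 1) = 1 := by
  rw [Measure.real, Real.volume_Icc_pi]
  simp

/-- the main lemma -/
theorem d14_main (h2 : ST_D2) {n P : ℕ} (hn : 1 ≤ n) {c : ℕ → Sq → Sq → ℂ} (hc : MC n P c) {j : ℕ} (hj : j ≤ P)
    {p : ℕ} (hp : j ≤ p) (hP : P ≤ p + 1) : LC n p (fun y => cub j (fF c j y (fun k => y (k + j)))) where
  dep y y' h := by
    unfold cub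
    refine setIntegral_congr_fun measurableSet_Icc fun u _ => ?_
    show fF c j y (fun k => y (k + j)) u = fF c j y' (fun k => y' (k + j)) u
    unfold fF
    refine Finset.sum_congr rfl fun σ _ => ?_
    congr 1
    have e1 : Phi j y u = Phi j y' u := by
      funext x
      unfold Phi
      exact Finset.sum_congr rfl fun i hi => by rw [h i (by have := Finset.mem_range.1 hi; omega)]
    have e2 : dirs y u σ = dirs y' u σ := by
      funext b
      by_cases hb : b < j
      · simp only [dirs, dif_pos hb]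
        funext x
        unfold dPhi
        exact Finset.sum_congr rfl fun i hi => by rw [h i (by have := Finset.mem_range.1 hi; omega)]
      · simp only [dirs, dif_neg hb]
    rw [e1, e2]
    refine hc.depΦ j hj _ _ _ fun k hk => ?_
    by_cases hkj : k ≤ j
    · simp only [Tp, if_pos hkj]
    · simp only [Tp, if_neg hkj]
      exact h _ (by omega)
  uc ε hε := by
    obtain ⟨δ, hδ, h⟩ := d14_two h2 hn hc hj ε hε
    refine ⟨δ / 4, by positivity, ?_⟩
    intro y y' hy hy' hyy
    have i1 := d14_int h2 hn hc hj y (fun k => y (k + j)) hy (fun k => hy _)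
    have i2 := d14_int h2 hn hc hj y' (fun k => y' (k + j)) hy' (fun k => hy' _)
    show ‖(∫ u in Set.Icc (0 : Fin j → ℝ) 1, fF c j y (fun k => y (k + j)) u) -
      ∫ u in Set.Icc (0 : Fin j → ℝ) 1, fF c j y' (fun k => y' (k + j)) u‖ ≤ ε
    rw [← integral_sub i1 i2]
    have hb : ∀ u ∈ Set.Icc (0 : Fin j → ℝ) 1,
        ‖fF c j y (fun k => y (k + j)) u - fF c j y' (fun k => y' (k + j)) u‖ ≤ ε := by
      intro u hu
      rw [← d14_fF_N h2 hn hc hj y _ hy (fun k => hy _) u hu, ← d14_fF_N h2 hn hc hj y' _ hy' (fun k => hy' _) u hu]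
      have hN : ∀ k ≤ p, ∀ x, |d14N y k x - d14N y' k x| ≤ δ / 2 := by
        intro k hk x
        have b1 := hyy k hk x
        have b2 := hyy k hk 0
        unfold d14N
        rw [abs_le] at b1 b2 ⊢
        constructor <;> linarith
      have hPh : ∀ u' ∈ Set.Icc (0 : Fin j → ℝ) 1, ∀ x, |Phi j (d14N y) u' x - Phi j (d14N y') u' x| ≤ δ / 2 := by
        intro u' hu' x
        have e : Phi j (d14N y) u' x - Phi j (d14N y') u' x
          = ∑ i ∈ Finset.range (j + 1), lam j i u' * (d14N y i x - d14N y' i x) := by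
          unfold Phi
          rw [← Finset.sum_sub_distrib]
          exact Finset.sum_congr rfl fun i _ => by ring
        rw [e]
        refine (Finset.abs_sum_le_sum_abs _ _).trans ?_
        have e2 : δ / 2 = ∑ i ∈ Finset.range (j + 1), lam j i u' * (δ / 2) := by
          rw [← Finset.sum_mul, d14_lam_sum, one_mul]
        rw [e2]
        refine Finset.sum_le_sum fun i hi => ?_
        rw [abs_mul, abs_of_nonneg (d14_lam_nonneg j i u' hu')]
        exact mul_le_mul_of_nonneg_left (hN i (by have := Finset.mem_range.1 hi; omega) x)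
          (d14_lam_nonneg j i u' hu')
      refine h y y' _ _ hy hy' (fun k => hy _) (fun k => hy' _) u hu u hu ?_ ?_ ?_
      · intro x
        exact (hPh u hu x).trans (by linarith)
      · intro a x
        rw [d14_dPhi, d14_dPhi]
        have b1 := hPh _ (d14_mem1 a hu 1 zero_le_one le_rfl) x
        have b0 := hPh _ (d14_mem1 a hu 0 le_rfl zero_le_one) x
        rw [abs_le] at b1 b0 ⊢
        constructor <;> linarith
      · intro k hk x
        exact (hyy (k + j) (by omega) x).trans (by linarith)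
    have := norm_setIntegral_le_of_norm_le_const (μ := (volume : Measure (Fin j → ℝ)))
      (isCompact_Icc (a := (0 : Fin j → ℝ)) (b := 1)).measure_lt_top hb
    rw [d14_vol, mul_one] at this
    exact this
  zinv y t hy := by
    unfold cub
    refine setIntegral_congr_fun measurableSet_Icc fun u hu => ?_
    exact d14_fF_tr h2 hn hc hj y (fun k => y (k + j)) hy (fun k => hy _) (fun k => (t k : ℝ))
      (fun k => (t (k + j) : ℝ)) u hu
  rinv y g hg hy hyg := by
    unfold cub
    refine setIntegral_congr_fun measurableSet_Icc fun u hu => ?_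
    exact d14_fF_r h2 hn hc hj y (fun k => y (k + j)) hy (fun k => hy _) g hg hyg (fun k => hyg _) u hu

theorem d14_lc_zero (n p : ℕ) : LC n p (fun _ => 0) where
  dep _ _ _ := rfl
  uc ε hε := ⟨1, one_pos, fun y y' _ _ _ => by simpa using hε.le⟩
  zinv _ _ _ := rfl
  rinv _ _ _ _ _ := rfl

theorem d14_lc_add {n p : ℕ} {C D : Sq → ℂ} (hC : LC n p C) (hD : LC n p D) : LC n p (fun y => C y + D y) where
  dep y y' h := by rw [hC.dep y y' h, hD.dep y y' h]
  uc ε hε := by
    obtain ⟨δ, hδ, h⟩ := hC.uc (ε / 2) (half_pos hε)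
    obtain ⟨δ', hδ', h'⟩ := hD.uc (ε / 2) (half_pos hε)
    refine ⟨min δ δ', lt_min hδ hδ', fun y y' hy hy' hyy => ?_⟩
    have b1 := h y y' hy hy' fun k hk x => (hyy k hk x).trans (min_le_left _ _)
    have b2 := h' y y' hy hy' fun k hk x => (hyy k hk x).trans (min_le_right _ _)
    have e : C y + D y - (C y' + D y') = (C y - C y') + (D y - D y') := by ring
    rw [e]
    exact (norm_add_le _ _).trans (by linarith)
  zinv y t hy := by rw [hC.zinv y t hy, hD.zinv y t hy]
  rinv y g hg hy hyg := by rw [hC.rinv y g hg hy hyg, hD.rinv y g hg hy hyg]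

theorem d14_lc_sum {n p : ℕ} (s : Finset ℕ) (C : ℕ → Sq → ℂ) (h : ∀ j ∈ s, LC n p (C j)) :
    LC n p (fun y => ∑ j ∈ s, C j y) := by
  induction s using Finset.induction_on with
  | empty => simpa using d14_lc_zero n p
  | insert a s ha ih =>
    have h1 := d14_lc_add (h a (Finset.mem_insert_self a s)) (ih fun j hj => h j (Finset.mem_insert_of_mem hj))
    have e : (fun y => ∑ j ∈ insert a s, C j y) = fun y => C a y + ∑ j ∈ s, C j y := by
      funext y
      rw [Finset.sum_insert ha]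
    rw [e]
    exact h1

theorem st_D14 (h2 : ST_D2) : ST_D14 := by
  intro n p c hn hc
  constructor
  · have e : BB (p + 1) c = fun y => ∑ j ∈ Finset.range (p + 1), (fun (j : ℕ) (y : Sq) =>
        cub j (fF c j y (fun k => y (k + j)))) j y := rfl
    rw [e]
    refine d14_lc_sum _ _ fun j hj => ?_
    have := Finset.mem_range.1 hj
    exact d14_main h2 hn hc (by omega) (by omega) le_rfl
  · intro z
    have e : (fun y => cub (p + 1) (fF c (p + 1) y z)) =
        fun y => cub (p + 1) (fF c (p + 1) y (fun k => y (k + (p + 1)))) := by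
      funext y
      unfold cub
      refine setIntegral_congr_fun measurableSet_Icc fun u _ => ?_
      show fF c (p + 1) y z u = fF c (p + 1) y (fun k => y (k + (p + 1))) u
      unfold fF
      refine Finset.sum_congr rfl fun σ _ => ?_
      congr 1
      refine hc.depΦ (p + 1) le_rfl _ _ _ fun k hk => ?_
      simp only [Tp, if_pos hk]
    rw [e]
    exact d14_main h2 hn hc le_rfl le_rfl (by omega)

end

end Pool.Agent.Helper67.DO
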